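import Mathlib
import Pool.Prelude.Def_F_c31e40fa
import Pool.Agent.H713R2.Main4

set_option autoImplicit false

open Filter Topology N62a1eb23

namespace Pool.Agent.Results.MP_c6f924_an.LaurentDichotomy

open Pool.Agent.H713R2

/-- The Laurent coefficients of the exterior conformal map of the Mandelbrot set: if the Laurent
series converges absolutely on the unit circle, then the maximum of `m |b_m|` just below the
powers of two stays away from zero. -/
theorem result :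
    (∃ (ψ : ℂ → ℂ) (b : ℕ → ℂ), IsExteriorMap mandelbrotSet ψ ∧ HasLaurent ψ b) ∧
    ∀ (ψ : ℂ → ℂ) (b : ℕ → ℂ), IsExteriorMap mandelbrotSet ψ → HasLaurent ψ b →
      Summable (fun m : ℕ => ‖b m‖) →
      ∃ c : ℝ, 0 < c ∧ ∀ ε : ℝ, 0 < ε → ∀ᶠ n : ℕ in atTop, ∃ m : ℕ,
        (1 - ε) * 2 ^ n ≤ (m : ℝ) ∧ m < 2 ^ n ∧ c ≤ (m : ℝ) * ‖b m‖ := by
  obtain ⟨β, hβ⟩ := exists_beta (d := 2) le_rfl
  refine ⟨⟨_, _, exteriorMap_of_beta hβ, laurent_of_beta hβ⟩, ?_⟩
  intro ψ b hψ hb hs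
  have h1 := exterior_coeff hβ hψ hb
  simp only [h1] at hs ⊢
  have h2 := main_dichotomy' le_rfl hβ ((summable_nat_add_iff 1).mp hs)
  push_cast at h2
  exact h2

end Pool.Agent.Results.MP_c6f924_an.LaurentDichotomy
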