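import Mathlib
import Pool.Prelude.Def_F_c31e40fa
import Pool.Agent.H713R2.AR.PR

set_option autoImplicit false

open Filter Topology MeasureTheory Set N62a1eb23

namespace Pool.Agent.Results.MP_c6f924_an.ParameterRayArea

open Pool.Agent.H713R2 Pool.Agent.H713R2.AR

/-- The derivative of the exterior conformal map of the Mandelbrot set is controlled by the area
of a sublevel set of the dynamical Green's function; a criterion for the landing of parameter
rays. -/
theorem result :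
    (∃ ψ : ℂ → ℂ, IsExteriorMap mandelbrotSet ψ) ∧
    ∀ ψ : ℂ → ℂ, IsExteriorMap mandelbrotSet ψ →
      (∀ w : ℂ, 1 < ‖w‖ → (‖w‖ - 1) * ‖deriv ψ w‖ ≤
        2 / Real.pi * (volume {z : ℂ | green 2 (ψ w) z ≤ Real.log ‖w‖}).toReal) ∧
      ∀ ζ : ℂ, ‖ζ‖ = 1 →
        IntegrableOn (fun r : ℝ =>
          (volume {z : ℂ | green 2 (ψ (r * ζ)) z ≤ Real.log r}).toReal / (r - 1)) (Ioo 1 2) →
        IntegrableOn (fun r : ℝ => ‖deriv ψ (r * ζ)‖) (Ioo 1 2) ∧
          ∃ c ∈ mandelbrotSet, Tendsto (fun r : ℝ => ψ (r * ζ)) (𝓝[>] 1) (𝓝 c) := by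
  obtain ⟨β, hβ⟩ := exists_beta (d := 2) le_rfl
  refine ⟨⟨_, exteriorMap_of_beta hβ⟩, ?_⟩
  intro ψ hψ
  refine ⟨fun w hw => exterior_ineq_two hψ hw, ?_⟩
  intro ζ hζ hint
  refine landing le_rfl hψ hζ (B := fun r => 2 / Real.pi *
    (volume (GLev 2 (ψ (r * ζ)) (Real.log r))).toReal) ?_ ?_
  · intro r hr
    have hn : ‖(r : ℂ) * ζ‖ = r := by
      rw [norm_mul, hζ, mul_one, Complex.norm_real, Real.norm_eq_abs, abs_of_pos (by linarith)]
    have h1 := exterior_ineq_two hψ (w := (r : ℂ) * ζ) (by rw [hn]; exact hr)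
    rw [hn] at h1
    exact h1
  · have h1 := hint.const_mul (2 / Real.pi)
    refine h1.congr (Filter.Eventually.of_forall fun r => ?_)
    simp only [GLev]
    ring

end Pool.Agent.Results.MP_c6f924_an.ParameterRayArea
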